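import Mathlib
import Pool.Agent.Results.MP_8fdcc7_lc.FubiniProducts
import Pool.Agent.Helper292.ForceCH

/-!
# Consistently, `(U, ⊇*) <_T (U, ⊇)` for some ultrafilter `U` which is not a p-point

The forcing language is the one of `Helper292.ForceCH`: a sentence is the set of the conditions
which force it; `CHHolds P` says that `ω₁` many subsets of `ℕ` are all subsets of `ℕ`.
-/

set_option autoImplicit false

namespace Pool.Agent.Results.MP_8fdcc7_lc.ForcedNonPPoint

open Cardinal Pool.Agent.Helper292.ForceCH Pool.Agent.H341Q.TU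
open Pool.Agent.Results.MP_8fdcc7_lc.FubiniProducts (Example)

/-- (1) Some forcing notion forces that `ω₁` is preserved and that the continuum hypothesis holds.
(2) The continuum hypothesis implies that there is a nonprincipal ultrafilter on `ℕ` which is not a
p-point and satisfies `(U, ⊇*) <_T (U, ⊇)`. -/
theorem result :
    (∃ (P : Type) (_ : Preorder P), Nonempty P ∧ ∀ p : P,
      p ∈ OmegaOnePreserved P ∧ p ∈ CHHolds P) ∧
    ((ℵ₁ : Cardinal.{0}) = 𝔠 → ∃ U : Ultrafilter ℕ,
      NonPrin U ∧ ¬ IsPPt U ∧ TukLE (AlmOrd U) (InclOrd U) ∧ ¬ TukLE (InclOrd U) (AlmOrd U)) := by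
  refine ⟨?_, fun h => FubiniProducts.result.2.2.2 h.symm⟩
  · obtain ⟨P, i, h1, h2⟩ := exists_forcing
    exact ⟨P, i, h1, fun p => ⟨(h2 p).1, (h2 p).2.2⟩⟩

end Pool.Agent.Results.MP_8fdcc7_lc.ForcedNonPPoint
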